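import Mathlib

/-!
Non-complemented closed subspaces of `C[0,1]` with prescribed oscillating spectrum.
-/

set_option autoImplicit false

open Set Filter Topology

namespace Pool.Agent.Results.MP_8e06fd_an.NonComplementedSpectrum

/-! ### Definitions -/

/-- The Banach space `C[0,1]` of continuous real functions on `[0,1]` with the supremum norm. -/
abbrev C01 : Type := C(unitInterval, ℝ)

/-- The interval `I(t₀,d) = [0,1] ∩ [t₀ - d, t₀ + d]`. -/
def Intv (t₀ : unitInterval) (d : ℝ) : Set unitInterval :=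
  {s | (t₀ : ℝ) - d ≤ s ∧ (s : ℝ) ≤ t₀ + d}

/-- The oscillation of `f` on `J`. -/
noncomputable def osc (J : Set unitInterval) (f : C01) : ℝ :=
  sSup {r | ∃ s ∈ J, ∃ t ∈ J, r = |f s - f t|}

/-- The function `Γ_X`. -/
noncomputable def Gam (X : Submodule ℝ C01) (t : unitInterval) : ℝ :=
  sSup {a : ℝ | 0 ≤ a ∧ ∀ d > 0, ∃ f ∈ X, ‖f‖ = 1 ∧ a < osc (Intv t d) f}

/-- The oscillating spectrum `Ω(X)`. -/
def Omega (X : Submodule ℝ C01) : Set unitInterval := {t | 0 < Gam X t}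

/-- `X` is the range of a bounded linear projection of `C[0,1]`. -/
def IsComplemented (X : Submodule ℝ C01) : Prop :=
  ∃ P : C01 →L[ℝ] C01, (∀ f, P (P f) = P f) ∧ Set.range P = (X : Set C01)

/-! ### Oscillating functions -/

/-- The oscillating functions. -/
noncomputable def rr (k : ℕ) (t : ℝ) : ℝ := Real.cos (Real.pi * 16 ^ k * t)

lemma rr_cont (k : ℕ) : Continuous (rr k) := by
  unfold rr
  fun_prop

lemma rr_abs (k : ℕ) (t : ℝ) : |rr k t| ≤ 1 := Real.abs_cos_le_one _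

lemma rr_near (k : ℕ) (m : ℤ) (t : ℝ) (h : |16 ^ k * t - m| ≤ 1 / 3) :
    1 / 2 ≤ (-1) ^ m * rr k t := by
  have h1 : Real.pi * 16 ^ k * t = Real.pi * (16 ^ k * t - m) + m * Real.pi := by ring
  unfold rr
  rw [h1, Real.cos_add_int_mul_pi, ← mul_assoc, ← zpow_add₀ (by norm_num), ← two_mul]
  have h2 : ((-1 : ℝ)) ^ (2 * m) = 1 := by
    rw [zpow_mul]
    norm_num
  rw [h2, one_mul, ← Real.cos_pi_div_three, ← Real.cos_abs (Real.pi * (16 ^ k * t - m))]
  apply Real.cos_le_cos_of_nonneg_of_le_pi (abs_nonneg _)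
  · linarith [Real.pi_pos]
  · rw [abs_mul, abs_of_pos Real.pi_pos]
    have := mul_le_mul_of_nonneg_left h Real.pi_pos.le
    linarith

lemma exists_parity (a σ : ℝ) (hσ : σ = 1 ∨ σ = -1) :
    ∃ m : ℤ, a ≤ m ∧ (m : ℝ) ≤ a + 2 ∧ ((-1 : ℝ)) ^ m = σ := by
  have h1 : a ≤ (⌈a⌉ : ℝ) := Int.le_ceil a
  have h2 : (⌈a⌉ : ℝ) < a + 1 := Int.ceil_lt_add_one a
  rcases Int.even_or_odd ⌈a⌉ with he | ho
  · rcases hσ with rfl | rfl
    · exact ⟨⌈a⌉, h1, by linarith, he.neg_one_zpow⟩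
    · exact ⟨⌈a⌉ + 1, by push_cast; linarith, by push_cast; linarith, he.add_one.neg_one_zpow⟩
  · rcases hσ with rfl | rfl
    · exact ⟨⌈a⌉ + 1, by push_cast; linarith, by push_cast; linarith, ho.add_one.neg_one_zpow⟩
    · exact ⟨⌈a⌉, h1, by linarith, ho.neg_one_zpow⟩

lemma rr_pattern (N : ℕ) : ∀ (K : ℕ) (a b : ℝ) (σ : ℕ → ℝ), 3 / 16 ^ K ≤ b - a →
    (∀ k, σ k = 1 ∨ σ k = -1) →
    ∃ t, a ≤ t ∧ t ≤ b ∧ ∀ k, K ≤ k → k < K + N → 1 / 2 ≤ σ k * rr k t := by
  induction N with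
  | zero =>
    intro K a b σ hab _
    have : (0 : ℝ) < 3 / 16 ^ K := by positivity
    exact ⟨a, le_rfl, by linarith, fun k h1 h2 => absurd h2 (by omega)⟩
  | succ N ih =>
    intro K a b σ hab hσ
    have hp : (0 : ℝ) < 16 ^ K := by positivity
    obtain ⟨m, hm1, hm2, hm3⟩ := exists_parity (16 ^ K * a) (σ K) (hσ K)
    obtain ⟨t, ht1, ht2, ht3⟩ := ih (K + 1) (m / 16 ^ K) ((m + 1 / 3) / 16 ^ K) σ (by
      rw [← sub_div, pow_succ, ← div_div, div_div, mul_comm, ← div_div]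
      apply div_le_div_of_nonneg_right _ hp.le
      norm_num) hσ
    have ht1' : (m : ℝ) ≤ 16 ^ K * t := by
      rw [div_le_iff₀ hp] at ht1
      linarith
    have ht2' : 16 ^ K * t ≤ m + 1 / 3 := by
      rw [le_div_iff₀ hp] at ht2
      linarith
    refine ⟨t, ?_, ?_, ?_⟩
    · have : 16 ^ K * a ≤ 16 ^ K * t := hm1.trans ht1'
      exact le_of_mul_le_mul_left this hp
    · have h1 : 16 ^ K * t ≤ 16 ^ K * b := by
        rw [div_le_iff₀ hp] at hab
        nlinarith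
      exact le_of_mul_le_mul_left h1 hp
    · intro k hk1 hk2
      rcases Nat.eq_or_lt_of_le hk1 with h | h
      · subst h
        rw [← hm3]
        apply rr_near
        rw [abs_le]
        constructor <;> linarith
      · exact ht3 k h (by omega)

/-- Sign patterns near a given point of `[0,1]`. -/
lemma rr_pattern' (N K : ℕ) (y ρ : ℝ) (hy : y ∈ Icc (0 : ℝ) 1) (hρ : ρ ≤ 1 / 2)
    (hK : 3 / 16 ^ K ≤ ρ) (σ : ℕ → ℝ) (hσ : ∀ k, σ k = 1 ∨ σ k = -1) :
    ∃ t ∈ Icc (0 : ℝ) 1, |t - y| ≤ ρ ∧ ∀ k, K ≤ k → k < K + N → 1 / 2 ≤ σ k * rr k t := by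
  obtain ⟨hy0, hy1⟩ := hy
  have hρ0 : 0 < ρ := lt_of_lt_of_le (by positivity) hK
  rcases le_total y (1 / 2) with h | h
  · obtain ⟨t, ht1, ht2, ht3⟩ := rr_pattern N K y (y + ρ) σ (by linarith) hσ
    refine ⟨t, ⟨by linarith, by linarith⟩, ?_, ht3⟩
    rw [abs_le]
    constructor <;> linarith
  · obtain ⟨t, ht1, ht2, ht3⟩ := rr_pattern N K (y - ρ) y σ (by linarith) hσ
    refine ⟨t, ⟨by linarith, by linarith⟩, ?_, ht3⟩
    rw [abs_le]
    constructor <;> linarith

/-! ### Non-complementation -/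

/-- The sign of a Boolean. -/
noncomputable def sg (b : Bool) : ℝ := if b = true then 1 else -1

lemma sg_true : sg true = 1 := by simp [sg]
lemma sg_false : sg false = -1 := by simp [sg]
lemma sg_abs (b : Bool) : |sg b| = 1 := by cases b <;> simp [sg]

/-- The complex product. -/
noncomputable def cprod {n : ℕ} (y : Fin n → ℝ) (ε : Fin n → Bool) : ℂ :=
  ∏ l, (1 + Complex.I * ((sg (ε l) * y l : ℝ) : ℂ))

lemma cprod_sum {n : ℕ} (y : Fin n → ℝ) (j : Fin n) :
    ∑ ε : Fin n → Bool, (sg (ε j) : ℂ) * cprod y ε = 2 ^ n * (Complex.I * (y j : ℂ)) := by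
  classical
  have h1 : ∀ ε : Fin n → Bool, (sg (ε j) : ℂ) * cprod y ε =
      ∏ l, ((if l = j then (sg (ε l) : ℂ) else 1) *
        (1 + Complex.I * ((sg (ε l) * y l : ℝ) : ℂ))) := by
    intro ε
    rw [Finset.prod_mul_distrib, Finset.prod_ite_eq' Finset.univ j (fun l => (sg (ε l) : ℂ))]
    simp [cprod]
  simp_rw [h1]
  have h2 := Finset.prod_univ_sum (fun _ : Fin n => (Finset.univ : Finset Bool))
    (fun l b => ((if l = j then (sg b : ℂ) else 1) * (1 + Complex.I * ((sg b * y l : ℝ) : ℂ))))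
  rw [Fintype.piFinset_univ] at h2
  rw [← h2]
  have h3 : ∀ l : Fin n, ∑ b : Bool, ((if l = j then (sg b : ℂ) else 1) *
      (1 + Complex.I * ((sg b * y l : ℝ) : ℂ))) =
        2 * (if l = j then Complex.I * (y l : ℂ) else 1) := by
    intro l
    rw [Fintype.sum_bool, sg_true, sg_false]
    split_ifs <;> push_cast <;> ring
  simp_rw [h3]
  rw [Finset.prod_mul_distrib, Finset.prod_ite_eq' Finset.univ j (fun l => Complex.I * (y l : ℂ))]
  simp

lemma cprod_norm {n : ℕ} (y : Fin n → ℝ) (ε : Fin n → Bool) (hy : ∑ l, y l ^ 2 ≤ 1) :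
    ‖cprod y ε‖ ≤ 2 := by
  have h1 : ‖cprod y ε‖ ^ 2 ≤ 2 ^ 2 := by
    unfold cprod
    rw [norm_prod, ← Finset.prod_pow]
    calc ∏ l, ‖(1 + Complex.I * ((sg (ε l) * y l : ℝ) : ℂ))‖ ^ 2 ≤ ∏ l, Real.exp (y l ^ 2) := by
          apply Finset.prod_le_prod
          · intro l _
            positivity
          · intro l _
            have h2 : ‖(1 + Complex.I * ((sg (ε l) * y l : ℝ) : ℂ))‖ ^ 2 = 1 + y l ^ 2 := by
              rw [← Complex.normSq_eq_norm_sq, Complex.normSq_apply]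
              have h3 : sg (ε l) ^ 2 = 1 := by
                rw [← sq_abs, sg_abs, one_pow]
              simp only [Complex.add_re, Complex.one_re, Complex.mul_re, Complex.I_re,
                Complex.ofReal_re, Complex.I_im, Complex.ofReal_im, Complex.add_im,
                Complex.one_im, Complex.mul_im]
              nlinarith
            rw [h2, add_comm]
            exact Real.add_one_le_exp _
      _ = Real.exp (∑ l, y l ^ 2) := (Real.exp_sum _ _).symm
      _ ≤ Real.exp 1 := Real.exp_le_exp.2 hy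
      _ ≤ 2 ^ 2 := by
          have := Real.exp_one_lt_d9
          norm_num at this ⊢
          linarith
  exact le_of_sq_le_sq h1 (by norm_num)

/-- The test functions. -/
noncomputable def test {n : ℕ} (x : Fin n → C01) (ε : Fin n → Bool) : C01 :=
  ⟨fun t => (cprod (fun l => x l t / Real.sqrt n) ε).im, by
    unfold cprod
    fun_prop⟩

lemma test_norm {n : ℕ} (hn : 0 < n) (x : Fin n → C01) (hx : ∀ l, ‖x l‖ ≤ 1) (ε : Fin n → Bool) :
    ‖test x ε‖ ≤ 2 := by
  rw [ContinuousMap.norm_le _ (by norm_num)]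
  intro t
  refine (Complex.abs_im_le_norm _).trans (cprod_norm _ _ ?_)
  have hn' : (0 : ℝ) < n := by exact_mod_cast hn
  have h1 : ∀ l : Fin n, (x l t / Real.sqrt n) ^ 2 ≤ 1 / n := by
    intro l
    rw [div_pow, Real.sq_sqrt hn'.le]
    apply div_le_div_of_nonneg_right _ hn'.le
    rw [sq_le_one_iff_abs_le_one]
    exact ((x l).norm_coe_le_norm t).trans (hx l)
  calc ∑ l : Fin n, (x l t / Real.sqrt n) ^ 2 ≤ ∑ l : Fin n, (1 : ℝ) / n :=
        Finset.sum_le_sum fun l _ => h1 l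
    _ = 1 := by
        rw [Finset.sum_const, Finset.card_univ, Fintype.card_fin, nsmul_eq_mul]
        field_simp

lemma test_sum {n : ℕ} (x : Fin n → C01) (j : Fin n) :
    ∑ ε : Fin n → Bool, sg (ε j) • test x ε = (2 ^ n / Real.sqrt n) • x j := by
  ext t
  rw [ContinuousMap.sum_apply]
  have h := congrArg Complex.im (cprod_sum (fun l => x l t / Real.sqrt n) j)
  rw [Complex.im_sum] at h
  simp only [Complex.im_ofReal_mul] at h
  have h2 : ((2 : ℂ) ^ n * (Complex.I * ((x j t / Real.sqrt n : ℝ) : ℂ))).im =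
      2 ^ n * (x j t / Real.sqrt n) := by
    have : ((2 : ℂ) ^ n) = (((2 : ℝ) ^ n : ℝ) : ℂ) := by push_cast; rfl
    rw [this, Complex.im_ofReal_mul]
    simp
  rw [h2] at h
  have h3 : ∀ ε : Fin n → Bool, (sg (ε j) • test x ε) t =
      sg (ε j) * (cprod (fun l => x l t / Real.sqrt n) ε).im := fun ε => rfl
  simp_rw [h3]
  rw [h]
  change _ = (2 ^ n / Real.sqrt n) * x j t
  ring

lemma not_compl {ι : Type*} (x : ι → C01) (hx : ∀ k, ‖x k‖ ≤ 1) (C : ℝ) (hC : 0 < C)
    (hN : ∀ n : ℕ, ∃ e : Fin n → ι, ∀ a : ι →₀ ℝ,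
      ∑ j, |a (e j)| ≤ C * ‖Finsupp.linearCombination ℝ x a‖)
    (P : C01 →L[ℝ] C01) (hP : ∀ f, P (P f) = P f)
    (hr : Set.range P = closure (Submodule.span ℝ (range x) : Set C01)) : False := by
  classical
  obtain ⟨n, hn⟩ := exists_nat_gt ((C * (2 * ‖P‖ + 2)) ^ 2)
  have hn0 : 0 < n := by
    have : (0 : ℝ) < n := lt_of_le_of_lt (sq_nonneg _) hn
    exact_mod_cast this
  have hn' : (0 : ℝ) < n := by exact_mod_cast hn0
  have hsq : C * (2 * ‖P‖ + 2) < Real.sqrt n := Real.lt_sqrt_of_sq_lt hn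
  obtain ⟨e, he⟩ := hN n
  let L := Finsupp.linearCombination ℝ x
  have hPx : ∀ k, P (x k) = x k := by
    intro k
    have : x k ∈ Set.range P := by
      rw [hr]
      exact subset_closure (Submodule.subset_span ⟨k, rfl⟩)
    obtain ⟨f, hf⟩ := this
    rw [← hf, hP]
  have happ : ∀ ε : Fin n → Bool, ∃ a : ι →₀ ℝ, ‖P (test (fun j => x (e j)) ε) - L a‖ ≤ 1 / n := by
    intro ε
    have h1 : P (test (fun j => x (e j)) ε) ∈ closure (Submodule.span ℝ (range x) : Set C01) := by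
      rw [← hr]; exact ⟨_, rfl⟩
    rw [Metric.mem_closure_iff] at h1
    obtain ⟨b, hb, hb'⟩ := h1 (1 / n) (by positivity)
    obtain ⟨a, rfl⟩ := (Finsupp.mem_span_range_iff_exists_finsupp).1 hb
    refine ⟨a, ?_⟩
    rw [dist_eq_norm] at hb'
    exact hb'.le
  choose a ha using happ
  have key1 : ∀ j : Fin n, (2 ^ n / Real.sqrt n) - C * (2 ^ n / n) ≤
      ∑ ε : Fin n → Bool, sg (ε j) * a ε (e j) := by
    intro j
    let D : ι →₀ ℝ := (∑ ε : Fin n → Bool, sg (ε j) • a ε) -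
      (2 ^ n / Real.sqrt n) • Finsupp.single (e j) 1
    have hLD : L D = ∑ ε : Fin n → Bool, sg (ε j) • (L (a ε) - P (test (fun j => x (e j)) ε)) := by
      simp_rw [smul_sub]
      rw [Finset.sum_sub_distrib]
      have h1 : ∑ ε : Fin n → Bool, sg (ε j) • P (test (fun j => x (e j)) ε) =
          (2 ^ n / Real.sqrt n) • x (e j) := by
        rw [← hPx (e j), ← map_smul, ← test_sum (fun j => x (e j)) j, map_sum]
        simp_rw [map_smul]
      rw [h1, map_sub, map_sum, map_smul]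
      simp_rw [map_smul]
      congr 2
      change Finsupp.linearCombination ℝ x _ = _
      rw [Finsupp.linearCombination_single, one_smul]
    have hnorm : ‖L D‖ ≤ 2 ^ n / n := by
      rw [hLD]
      refine (norm_sum_le _ _).trans ?_
      calc ∑ ε : Fin n → Bool, ‖sg (ε j) • (L (a ε) - P (test (fun j => x (e j)) ε))‖
          ≤ ∑ ε : Fin n → Bool, (1 : ℝ) / n := by
            apply Finset.sum_le_sum
            intro ε _
            rw [norm_smul, Real.norm_eq_abs, sg_abs, one_mul, norm_sub_rev]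
            exact ha ε
        _ = 2 ^ n / n := by
            rw [Finset.sum_const, Finset.card_univ]
            simp
            ring
    have h2 : |D (e j)| ≤ C * (2 ^ n / n) := by
      calc |D (e j)| ≤ ∑ i, |D (e i)| :=
            Finset.single_le_sum (f := fun i => |D (e i)|) (fun i _ => abs_nonneg _)
              (Finset.mem_univ j)
        _ ≤ C * ‖L D‖ := he D
        _ ≤ _ := mul_le_mul_of_nonneg_left hnorm hC.le
    have h3 : D (e j) = ∑ ε : Fin n → Bool, sg (ε j) * a ε (e j) - (2 ^ n / Real.sqrt n) := by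
      simp [D]
    rw [h3, abs_le] at h2
    linarith [h2.1]
  have key2 : ∀ ε : Fin n → Bool, ∑ j, sg (ε j) * a ε (e j) ≤ C * (2 * ‖P‖ + 1) := by
    intro ε
    have h1 : ‖L (a ε)‖ ≤ 2 * ‖P‖ + 1 := by
      have h2 := ha ε
      have h3 : ‖P (test (fun j => x (e j)) ε)‖ ≤ ‖P‖ * 2 :=
        (P.le_opNorm _).trans (mul_le_mul_of_nonneg_left
          (test_norm hn0 _ (fun l => hx _) ε) (norm_nonneg _))
      have h4 : (1 : ℝ) / n ≤ 1 := by
        rw [div_le_one hn']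
        exact_mod_cast hn0
      have h5 : L (a ε) = P (test (fun j => x (e j)) ε) -
          (P (test (fun j => x (e j)) ε) - L (a ε)) := by abel
      rw [h5]
      refine (norm_sub_le _ _).trans ?_
      linarith
    calc ∑ j, sg (ε j) * a ε (e j) ≤ ∑ j, |a ε (e j)| := by
          apply Finset.sum_le_sum
          intro j _
          refine (le_abs_self _).trans ?_
          rw [abs_mul, sg_abs, one_mul]
      _ ≤ C * ‖L (a ε)‖ := he (a ε)
      _ ≤ _ := mul_le_mul_of_nonneg_left h1 hC.le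
  have hs1 : n * ((2 ^ n / Real.sqrt n) - C * (2 ^ n / n)) ≤
      ∑ j : Fin n, ∑ ε : Fin n → Bool, sg (ε j) * a ε (e j) := by
    calc (n : ℝ) * ((2 ^ n / Real.sqrt n) - C * (2 ^ n / n)) =
          ∑ j : Fin n, ((2 ^ n / Real.sqrt n) - C * (2 ^ n / n)) := by
            rw [Finset.sum_const, Finset.card_univ, Fintype.card_fin, nsmul_eq_mul]
      _ ≤ _ := Finset.sum_le_sum fun j _ => key1 j
  have hs2 : ∑ j : Fin n, ∑ ε : Fin n → Bool, sg (ε j) * a ε (e j) ≤
      2 ^ n * (C * (2 * ‖P‖ + 1)) := by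
    rw [Finset.sum_comm]
    calc ∑ ε : Fin n → Bool, ∑ j, sg (ε j) * a ε (e j) ≤
          ∑ ε : Fin n → Bool, C * (2 * ‖P‖ + 1) := Finset.sum_le_sum fun ε _ => key2 ε
      _ = _ := by
          rw [Finset.sum_const, Finset.card_univ, nsmul_eq_mul]
          simp
  have hs3 : (n : ℝ) * ((2 ^ n / Real.sqrt n) - C * (2 ^ n / n)) =
      2 ^ n * (Real.sqrt n - C) := by
    have h1 : (n : ℝ) / Real.sqrt n = Real.sqrt n := Real.div_sqrt
    have h2 : (n : ℝ) * (2 ^ n / Real.sqrt n) = 2 ^ n * (n / Real.sqrt n) := by ring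
    rw [mul_sub, h2, h1]
    field_simp
  rw [hs3] at hs1
  have hs4 : Real.sqrt n - C ≤ C * (2 * ‖P‖ + 1) :=
    le_of_mul_le_mul_left (hs1.trans hs2) (by positivity)
  linarith


/-! ### The oscillating spectrum of a closed span -/

lemma abs_sub_le_two (f : C01) (s t : unitInterval) : |f s - f t| ≤ 2 * ‖f‖ := by
  have h1 := f.norm_coe_le_norm s
  have h2 := f.norm_coe_le_norm t
  rw [Real.norm_eq_abs] at h1 h2
  calc |f s - f t| ≤ |f s| + |f t| := abs_sub _ _
    _ ≤ 2 * ‖f‖ := by linarith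

lemma osc_bdd (J : Set unitInterval) (f : C01) :
    BddAbove {r | ∃ s ∈ J, ∃ t ∈ J, r = |f s - f t|} := by
  refine ⟨2 * ‖f‖, ?_⟩
  rintro r ⟨s, _, t, _, rfl⟩
  exact abs_sub_le_two f s t

lemma mem_Intv_self (t : unitInterval) {d : ℝ} (hd : 0 < d) : t ∈ Intv t d :=
  ⟨by linarith, by linarith⟩

lemma mem_Omega_of (X : Submodule ℝ C01) (t : unitInterval) (a : ℝ) (ha : 0 < a)
    (h : ∀ d > 0, ∃ f ∈ X, ‖f‖ = 1 ∧ ∃ s ∈ Intv t d, ∃ s' ∈ Intv t d, a < |f s - f s'|) :
    t ∈ Omega X := by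
  have hb : BddAbove {a : ℝ | 0 ≤ a ∧ ∀ d > 0, ∃ f ∈ X, ‖f‖ = 1 ∧ a < osc (Intv t d) f} := by
    refine ⟨2, ?_⟩
    rintro a ⟨_, ha⟩
    obtain ⟨f, _, hf, hf'⟩ := ha 1 one_pos
    refine hf'.le.trans ?_
    apply csSup_le
    · exact ⟨_, t, mem_Intv_self t one_pos, t, mem_Intv_self t one_pos, rfl⟩
    · rintro r ⟨s, _, t, _, rfl⟩
      have := abs_sub_le_two f s t
      rw [hf] at this
      linarith
  refine lt_of_lt_of_le ha (le_csSup hb ⟨ha.le, ?_⟩)
  intro d hd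
  obtain ⟨f, hf, hf1, s, hs, s', hs', hlt⟩ := h d hd
  exact ⟨f, hf, hf1, hlt.trans_le (le_csSup (osc_bdd _ f) ⟨s, hs, s', hs', rfl⟩)⟩

lemma notMem_Omega_of (X : Submodule ℝ C01) (t : unitInterval)
    (h : ∀ η > 0, ∃ d > 0, ∀ f ∈ X, ‖f‖ = 1 → ∀ s ∈ Intv t d, ∀ s' ∈ Intv t d,
      |f s - f s'| ≤ η) : t ∉ Omega X := by
  intro ht
  have ht' : 0 < sSup {a : ℝ | 0 ≤ a ∧ ∀ d > 0, ∃ f ∈ X, ‖f‖ = 1 ∧ a < osc (Intv t d) f} := ht
  obtain ⟨a, ha, ha0⟩ : ∃ a ∈ {a : ℝ | 0 ≤ a ∧ ∀ d > 0, ∃ f ∈ X, ‖f‖ = 1 ∧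
      a < osc (Intv t d) f}, 0 < a := by
    by_contra hcon
    push Not at hcon
    exact absurd ht' (not_lt.2 (Real.sSup_nonpos hcon))
  obtain ⟨d, hd, hd'⟩ := h a ha0
  obtain ⟨f, hf, hf1, hlt⟩ := ha.2 d hd
  refine absurd hlt (not_lt.2 ?_)
  apply csSup_le
  · exact ⟨_, t, mem_Intv_self t hd, t, mem_Intv_self t hd, rfl⟩
  · rintro r ⟨s, hs, s', hs', rfl⟩
    exact hd' f hf hf1 s hs s' hs'

lemma main_span {ι : Type*} (x : ι → C01) (hx : ∀ k, ‖x k‖ ≤ 1) (C : ℝ) (hC : 0 < C)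
    (M : Set unitInterval)
    (hN1 : ∀ (a : ι →₀ ℝ) (k : ι), |a k| ≤ C * ‖Finsupp.linearCombination ℝ x a‖)
    (hN : ∀ n : ℕ, ∃ e : Fin n → ι, ∀ a : ι →₀ ℝ,
      ∑ j, |a (e j)| ≤ C * ‖Finsupp.linearCombination ℝ x a‖)
    (hE : ∀ t ∉ M, ∀ η > 0, ∃ d > 0, ∃ K : Finset ι, ∀ (a : ι →₀ ℝ) (s : unitInterval),
      |(s : ℝ) - t| ≤ d → |Finsupp.linearCombination ℝ x a s - ∑ k ∈ K, a k * x k s| ≤
        η * ‖Finsupp.linearCombination ℝ x a‖)
    (hO : ∀ t ∈ M, ∃ p > 0, ∀ d > 0, ∃ k : ι, ∃ s s' : unitInterval,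
      |(s : ℝ) - t| ≤ d ∧ |(s' : ℝ) - t| ≤ d ∧ p ≤ |x k s - x k s'|) :
    ∃ X : Submodule ℝ C01, IsClosed (X : Set C01) ∧ ¬ IsComplemented X ∧ Omega X = M := by
  classical
  refine ⟨(Submodule.span ℝ (range x)).topologicalClosure,
    Submodule.isClosed_topologicalClosure _, ?_, ?_⟩
  · rintro ⟨P, hP, hr⟩
    refine not_compl x hx C hC hN P hP ?_
    rw [hr, Submodule.topologicalClosure_coe]
  · apply Subset.antisymm
    · intro t ht
      by_contra htM
      revert ht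
      apply notMem_Omega_of
      intro η hη
      obtain ⟨d, hd, K, hK⟩ := hE t htM (η / 4) (by positivity)
      have hcont : Continuous (fun s : unitInterval => ∑ k ∈ K, |x k s - x k t|) := by fun_prop
      have hzero : (∑ k ∈ K, |x k t - x k t|) < η / (4 * C) := by
        simp only [sub_self, abs_zero, Finset.sum_const_zero]
        positivity
      have hev : ∀ᶠ s in 𝓝 t, (∑ k ∈ K, |x k s - x k t|) < η / (4 * C) :=
        hcont.continuousAt.eventually_lt continuousAt_const hzero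
      obtain ⟨d', hd', hd''⟩ := Metric.eventually_nhds_iff.1 hev
      refine ⟨min d (d' / 2), lt_min hd (by positivity), ?_⟩
      have hsmall : ∀ s ∈ Intv t (min d (d' / 2)), |(s : ℝ) - t| ≤ d ∧
          (∑ k ∈ K, |x k s - x k t|) < η / (4 * C) := by
        intro s hs
        have h1 : |(s : ℝ) - t| ≤ min d (d' / 2) := by
          rw [abs_le]
          constructor <;> linarith [hs.1, hs.2]
        refine ⟨h1.trans (min_le_left _ _), hd'' ?_⟩
        rw [Subtype.dist_eq, Real.dist_eq]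
        have := h1.trans (min_le_right _ _)
        linarith
      have hmain : ∀ f ∈ (Submodule.span ℝ (range x)).topologicalClosure,
          ∀ s ∈ Intv t (min d (d' / 2)), ∀ s' ∈ Intv t (min d (d' / 2)),
          |f s - f s'| ≤ η * ‖f‖ := by
        intro f hf s hs s' hs'
        have hcl : IsClosed {f : C01 | |f s - f s'| ≤ η * ‖f‖} := by
          apply isClosed_le
          · exact ((continuous_eval_const s).sub (continuous_eval_const s')).abs
          · exact continuous_const.mul continuous_norm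
        have hsub : (Submodule.span ℝ (range x) : Set C01) ⊆
            {f : C01 | |f s - f s'| ≤ η * ‖f‖} := by
          intro g hg
          obtain ⟨a, rfl⟩ := (Finsupp.mem_span_range_iff_exists_finsupp).1 hg
          change |Finsupp.linearCombination ℝ x a s - Finsupp.linearCombination ℝ x a s'| ≤
            η * ‖Finsupp.linearCombination ℝ x a‖
          obtain ⟨hs1, hs2⟩ := hsmall s hs
          obtain ⟨hs1', hs2'⟩ := hsmall s' hs'
          have e1 := hK a s hs1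
          have e2 := hK a s' hs1'
          set f := Finsupp.linearCombination ℝ x a with hf
          have e3 : |∑ k ∈ K, a k * x k s - ∑ k ∈ K, a k * x k s'| ≤ η / 2 * ‖f‖ := by
            rw [← Finset.sum_sub_distrib]
            refine (Finset.abs_sum_le_sum_abs _ _).trans ?_
            calc ∑ k ∈ K, |a k * x k s - a k * x k s'| ≤
                ∑ k ∈ K, (C * ‖f‖) * (|x k s - x k t| + |x k s' - x k t|) := by
                  apply Finset.sum_le_sum
                  intro k _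
                  rw [← mul_sub, abs_mul]
                  apply mul_le_mul (hN1 a k) _ (abs_nonneg _) (by positivity)
                  have := abs_sub_le (x k s) (x k t) (x k s')
                  rwa [abs_sub_comm (x k t)] at this
              _ = (C * ‖f‖) * (∑ k ∈ K, |x k s - x k t| + ∑ k ∈ K, |x k s' - x k t|) := by
                  rw [← Finset.mul_sum, Finset.sum_add_distrib]
              _ ≤ (C * ‖f‖) * (η / (4 * C) + η / (4 * C)) := by
                  apply mul_le_mul_of_nonneg_left _ (by positivity)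
                  linarith
              _ = η / 2 * ‖f‖ := by
                  field_simp
                  ring
          rw [abs_le] at e1 e2 e3 ⊢
          constructor <;> linarith [e1.1, e1.2, e2.1, e2.2, e3.1, e3.2]
        exact closure_minimal hsub hcl hf
      intro f hf hf1 s hs s' hs'
      have := hmain f hf s hs s' hs'
      rwa [hf1, mul_one] at this
    · intro t ht
      obtain ⟨p, hp, h⟩ := hO t ht
      refine mem_Omega_of _ t (p / 2) (by positivity) ?_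
      intro d hd
      obtain ⟨k, s, s', hs, hs', hps⟩ := h d hd
      have hne : x k ≠ 0 := by
        intro h0
        rw [h0] at hps
        simp only [ContinuousMap.zero_apply, sub_self, abs_zero] at hps
        linarith
      have hpos : 0 < ‖x k‖ := norm_pos_iff.2 hne
      refine ⟨‖x k‖⁻¹ • x k, ?_, ?_, s, ?_, s', ?_, ?_⟩
      · apply Submodule.smul_mem
        exact Submodule.le_topologicalClosure _ (Submodule.subset_span ⟨k, rfl⟩)
      · rw [norm_smul, norm_inv, norm_norm, inv_mul_cancel₀ hpos.ne']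
      · rw [abs_le] at hs
        exact ⟨by linarith, by linarith⟩
      · rw [abs_le] at hs'
        exact ⟨by linarith, by linarith⟩
      · have h1 : (‖x k‖⁻¹ • x k) s - (‖x k‖⁻¹ • x k) s' = ‖x k‖⁻¹ * (x k s - x k s') := by
          change ‖x k‖⁻¹ * x k s - ‖x k‖⁻¹ * x k s' = _
          ring
        rw [h1, abs_mul, abs_of_pos (inv_pos.2 hpos)]
        have h2 : 1 ≤ ‖x k‖⁻¹ := (one_le_inv₀ hpos).2 (hx k)
        nlinarith [abs_nonneg (x k s - x k s')]


/-! ### Averages -/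

/-- The weights. -/
noncomputable def cc (m : ℕ) : ℝ := 7 / 8 * (1 / 8) ^ m

lemma cc_pos (m : ℕ) : 0 < cc m := by unfold cc; positivity

lemma cc_hasSum : HasSum cc 1 := by
  have h := (hasSum_geometric_of_lt_one (by norm_num : (0 : ℝ) ≤ 1 / 8) (by norm_num)).mul_left
    (7 / 8 : ℝ)
  have h2 : (7 / 8 : ℝ) * (1 - 1 / 8)⁻¹ = 1 := by norm_num
  rw [h2] at h
  exact h

lemma cc_tail (N : ℕ) : ∑' m, cc (m + N) = (1 / 8) ^ N := by
  have h1 : (fun m => cc (m + N)) = fun m => (1 / 8) ^ N * cc m := by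
    funext m
    unfold cc
    rw [pow_add]
    ring
  rw [h1, tsum_mul_left, cc_hasSum.tsum_eq, mul_one]

/-- The average of `G` of the distances. -/
noncomputable def Av (u : ℕ → unitInterval → ℝ) (G : ℝ → ℝ) (s : unitInterval) : ℝ :=
  ∑' m, cc m * G (u m s)

lemma Av_summable (u : ℕ → unitInterval → ℝ) (G : ℝ → ℝ) (hG : ∀ r, 0 ≤ G r ∧ G r ≤ 1)
    (s : unitInterval) : Summable (fun m => cc m * G (u m s)) := by
  refine Summable.of_nonneg_of_le (fun m => mul_nonneg (cc_pos m).le (hG _).1) (fun m => ?_)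
    cc_hasSum.summable
  exact mul_le_of_le_one_right (cc_pos m).le (hG _).2

lemma Av_nonneg (u : ℕ → unitInterval → ℝ) (G : ℝ → ℝ) (hG : ∀ r, 0 ≤ G r ∧ G r ≤ 1)
    (s : unitInterval) : 0 ≤ Av u G s :=
  tsum_nonneg fun m => mul_nonneg (cc_pos m).le (hG _).1

lemma Av_ge (u : ℕ → unitInterval → ℝ) (G : ℝ → ℝ) (hG : ∀ r, 0 ≤ G r ∧ G r ≤ 1)
    (s : unitInterval) (m : ℕ) : cc m * G (u m s) ≤ Av u G s :=
  (Av_summable u G hG s).le_tsum m (fun j _ => mul_nonneg (cc_pos j).le (hG _).1)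

lemma Av_le (u : ℕ → unitInterval → ℝ) (G : ℝ → ℝ) (hG : ∀ r, 0 ≤ G r ∧ G r ≤ 1)
    (s : unitInterval) (N : ℕ) :
    Av u G s ≤ ∑ m ∈ Finset.range N, cc m * G (u m s) + (1 / 8) ^ N := by
  unfold Av
  have hs := Av_summable u G hG s
  rw [← hs.sum_add_tsum_nat_add N]
  have h1 : ∑' m, cc (m + N) * G (u (m + N) s) ≤ (1 / 8) ^ N := by
    rw [← cc_tail N]
    refine Summable.tsum_le_tsum (fun m => ?_) ((summable_nat_add_iff N).2 hs)
      ((summable_nat_add_iff N).2 cc_hasSum.summable)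
    exact mul_le_of_le_one_right (cc_pos _).le (hG _).2
  linarith

lemma Av_le_one (u : ℕ → unitInterval → ℝ) (G : ℝ → ℝ) (hG : ∀ r, 0 ≤ G r ∧ G r ≤ 1)
    (s : unitInterval) : Av u G s ≤ 1 := by
  have := Av_le u G hG s 0
  simpa using this

lemma Av_cont (u : ℕ → unitInterval → ℝ) (hu : ∀ m, Continuous (u m)) (G : ℝ → ℝ)
    (hGc : Continuous G) (hG : ∀ r, 0 ≤ G r ∧ G r ≤ 1) : Continuous (Av u G) := by
  unfold Av
  refine continuous_tsum (u := cc) (fun m => ?_) cc_hasSum.summable (fun m s => ?_)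
  · exact continuous_const.mul (hGc.comp (hu m))
  · rw [Real.norm_eq_abs, abs_of_nonneg (mul_nonneg (cc_pos m).le (hG _).1)]
    exact mul_le_of_le_one_right (cc_pos _).le (hG _).2

lemma Av_sum (u : ℕ → unitInterval → ℝ) (S : Finset ℕ) (G : ℕ → ℝ → ℝ)
    (hG : ∀ n r, 0 ≤ G n r ∧ G n r ≤ 1) (s : unitInterval) :
    Av u (fun r => ∑ n ∈ S, G n r) s = ∑ n ∈ S, Av u (G n) s := by
  unfold Av
  rw [← Summable.tsum_finsetSum (fun n _ => Av_summable u (G n) (hG n) s)]
  congr 1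
  funext m
  rw [Finset.mul_sum]

/-- The distance functions. -/
noncomputable def ds (F : ℕ → Set unitInterval) (m : ℕ) (s : unitInterval) : ℝ :=
  Metric.infDist s (F m)

lemma ds_cont (F : ℕ → Set unitInterval) (m : ℕ) : Continuous (ds F m) :=
  Metric.continuous_infDist_pt _

lemma ds_nonneg (F : ℕ → Set unitInterval) (m : ℕ) (s : unitInterval) : 0 ≤ ds F m s :=
  Metric.infDist_nonneg

lemma ds_zero (F : ℕ → Set unitInterval) (m : ℕ) (s : unitInterval) (hs : s ∈ F m) :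
    ds F m s = 0 := Metric.infDist_zero_of_mem hs

lemma ds_lip (F : ℕ → Set unitInterval) (m : ℕ) (s t : unitInterval) :
    ds F m s ≤ ds F m t + |(s : ℝ) - t| := by
  have := Metric.infDist_le_infDist_add_dist (s := F m) (x := s) (y := t)
  rwa [Subtype.dist_eq, Real.dist_eq] at this

lemma ds_lip' (F : ℕ → Set unitInterval) (m : ℕ) (s t : unitInterval) :
    |ds F m s - ds F m t| ≤ |(s : ℝ) - t| := by
  have h1 := ds_lip F m s t
  have h2 := ds_lip F m t s
  rw [abs_sub_comm] at h2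
  rw [abs_le]
  constructor <;> linarith

lemma ds_pos (F : ℕ → Set unitInterval) (m : ℕ) (hF : IsClosed (F m)) (hne : (F m).Nonempty)
    (s : unitInterval) (hs : s ∉ F m) : 0 < ds F m s :=
  (hF.notMem_iff_infDist_pos hne).1 hs

/-- Near a point outside `⋃ F m`. -/
lemma Av_near (F : ℕ → Set unitInterval) (hF : ∀ m, IsClosed (F m)) (hne : ∀ m, (F m).Nonempty)
    (t : unitInterval) (ht : ∀ m, t ∉ F m) (η : ℝ) (hη : 0 < η) :
    ∃ d > 0, ∃ δ > 0, ∀ G : ℝ → ℝ, (∀ r, 0 ≤ G r ∧ G r ≤ 1) → (∀ r, δ ≤ r → G r = 0) →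
      ∀ s : unitInterval, |(s : ℝ) - t| ≤ d → Av (ds F) G s ≤ η := by
  obtain ⟨N, hN⟩ := exists_pow_lt_of_lt_one hη (by norm_num : (1 / 8 : ℝ) < 1)
  have hδ : ∀ N : ℕ, ∃ δ > 0, ∀ m < N, 2 * δ ≤ ds F m t := by
    intro N
    induction N with
    | zero => exact ⟨1, one_pos, fun m hm => absurd hm (by omega)⟩
    | succ N ih =>
      obtain ⟨δ, hδ, h⟩ := ih
      have hp := ds_pos F N (hF N) (hne N) t (ht N)
      refine ⟨min δ (ds F N t / 2), lt_min hδ (by positivity), fun m hm => ?_⟩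
      rcases Nat.lt_succ_iff_lt_or_eq.1 hm with h1 | h1
      · have := h m h1
        have h2 := min_le_left δ (ds F N t / 2)
        linarith
      · subst h1
        have h2 := min_le_right δ (ds F m t / 2)
        linarith
  obtain ⟨δ, hδ0, hδ1⟩ := hδ N
  refine ⟨δ, hδ0, δ, hδ0, fun G hG hG0 s hs => ?_⟩
  refine (Av_le (ds F) G hG s N).trans ?_
  have : ∑ m ∈ Finset.range N, cc m * G (ds F m s) = 0 := by
    apply Finset.sum_eq_zero
    intro m hm
    rw [hG0, mul_zero]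
    have h1 := hδ1 m (Finset.mem_range.1 hm)
    have h2 := ds_lip F m t s
    rw [abs_sub_comm] at h2
    linarith
  rw [this, zero_add]
  exact hN.le

/-- The basic functions. -/
noncomputable def bf (F : ℕ → Set unitInterval) (K : ℕ) (G : ℝ → ℝ) (hGc : Continuous G)
    (hG : ∀ r, 0 ≤ G r ∧ G r ≤ 1) : C01 :=
  ⟨fun s => rr K s * Av (ds F) G s,
    ((rr_cont K).comp continuous_subtype_val).mul (Av_cont _ (ds_cont F) G hGc hG)⟩

lemma bf_apply (F : ℕ → Set unitInterval) (K : ℕ) (G : ℝ → ℝ) (hGc : Continuous G)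
    (hG : ∀ r, 0 ≤ G r ∧ G r ≤ 1) (s : unitInterval) :
    bf F K G hGc hG s = rr K s * Av (ds F) G s := rfl

lemma bf_norm (F : ℕ → Set unitInterval) (K : ℕ) (G : ℝ → ℝ) (hGc : Continuous G)
    (hG : ∀ r, 0 ≤ G r ∧ G r ≤ 1) : ‖bf F K G hGc hG‖ ≤ 1 := by
  rw [ContinuousMap.norm_le _ (by norm_num)]
  intro s
  rw [bf_apply, Real.norm_eq_abs, abs_mul, abs_of_nonneg (Av_nonneg _ G hG s)]
  exact mul_le_one₀ (rr_abs K s) (Av_nonneg _ G hG s) (Av_le_one _ G hG s)

/-! ### First case -/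

/-- Cut-off functions. -/
noncomputable def ps (k : ℕ) (r : ℝ) : ℝ := max 0 (min 1 (1 - k * r))

lemma ps_cont (k : ℕ) : Continuous (ps k) := by unfold ps; fun_prop

lemma ps_mem (k : ℕ) (r : ℝ) : 0 ≤ ps k r ∧ ps k r ≤ 1 :=
  ⟨le_max_left _ _, max_le zero_le_one (min_le_left _ _)⟩

lemma ps_zero (k : ℕ) : ps k 0 = 1 := by simp [ps]

lemma ps_ge (k : ℕ) (r : ℝ) (h : k * r ≤ 1 / 2) : 1 / 2 ≤ ps k r := by
  refine le_max_of_le_right (le_min (by norm_num) ?_)
  linarith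

lemma ps_eq_zero (k : ℕ) (r : ℝ) (h : 1 ≤ k * r) : ps k r = 0 := by
  unfold ps
  apply max_eq_left
  exact (min_le_right _ _).trans (by linarith)

theorem case_one (F : ℕ → Set unitInterval) (hF : ∀ m, IsClosed (F m))
    (hne : ∀ m, (F m).Nonempty) (hint : (interior (F 0)).Nonempty) :
    ∃ X : Submodule ℝ C01, IsClosed (X : Set C01) ∧ ¬ IsComplemented X ∧
      Omega X = ⋃ m, F m := by
  classical
  obtain ⟨y₀, hy₀⟩ := hint
  obtain ⟨ρ', hρ', hball⟩ := Metric.isOpen_iff.1 isOpen_interior y₀ hy₀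
  obtain ⟨K₀, hK₀⟩ : ∃ K₀ : ℕ, 3 / 16 ^ K₀ ≤ min (ρ' / 2) (1 / 2) := by
    have hpos : 0 < min (ρ' / 2) (1 / 2) / 3 := by positivity
    obtain ⟨n, hn⟩ := exists_pow_lt_of_lt_one hpos (by norm_num : (1 / 16 : ℝ) < 1)
    refine ⟨n, ?_⟩
    rw [one_div, inv_pow, ← one_div] at hn
    have : (3 : ℝ) / 16 ^ n = 3 * (1 / 16 ^ n) := by ring
    rw [this]
    linarith
  let x : ℕ → C01 := fun k => bf F (k + K₀) (ps k) (ps_cont k) (ps_mem k)
  have hx : ∀ k, ‖x k‖ ≤ 1 := fun k => bf_norm _ _ _ _ _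
  have hLN : ∀ (a : ℕ →₀ ℝ) (N : ℕ), a.support ⊆ Finset.range N → ∀ s : unitInterval,
      Finsupp.linearCombination ℝ x a s = ∑ k ∈ Finset.range N, a k * x k s := by
    intro a N hN s
    rw [Finsupp.linearCombination_apply, Finsupp.sum_of_support_subset a hN _ (by simp),
      ContinuousMap.sum_apply]
    rfl
  have hsupp : ∀ (a : ℕ →₀ ℝ), ∃ N, a.support ⊆ Finset.range N := by
    intro a
    obtain ⟨b, hb⟩ := a.support.exists_le
    exact ⟨b + 1, fun k hk => Finset.mem_range.2 (Nat.lt_succ_of_le (hb k hk))⟩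
  have key : ∀ (a : ℕ →₀ ℝ) (N : ℕ), a.support ⊆ Finset.range N →
      ∑ k ∈ Finset.range N, |a k| ≤ 4 * ‖Finsupp.linearCombination ℝ x a‖ := by
    intro a N hN
    let σ : ℕ → ℝ := fun j => if 0 ≤ a (j - K₀) then 1 else -1
    have hσ : ∀ j, σ j = 1 ∨ σ j = -1 := by
      intro j
      by_cases h : 0 ≤ a (j - K₀)
      · left; exact if_pos h
      · right; exact if_neg h
    obtain ⟨t, ht01, ht, ht'⟩ := rr_pattern' N K₀ y₀ (min (ρ' / 2) (1 / 2)) y₀.2
      (min_le_right _ _) hK₀ σ hσ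
    have htF : (⟨t, ht01⟩ : unitInterval) ∈ F 0 := by
      apply interior_subset
      apply hball
      rw [Metric.mem_ball, Subtype.dist_eq, Real.dist_eq]
      have := ht.trans (min_le_left _ _)
      change |t - y₀| < ρ'
      linarith
    have h1 : 7 / 16 * ∑ k ∈ Finset.range N, |a k| ≤
        Finsupp.linearCombination ℝ x a ⟨t, ht01⟩ := by
      rw [hLN a N hN, Finset.mul_sum]
      apply Finset.sum_le_sum
      intro k hk
      have hk' := Finset.mem_range.1 hk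
      have h2 := ht' (k + K₀) (by omega) (by omega)
      have h3 : |a k| = a k * σ (k + K₀) := by
        change |a k| = a k * (if 0 ≤ a (k + K₀ - K₀) then 1 else -1)
        rw [Nat.add_sub_cancel]
        split_ifs with h
        · rw [abs_of_nonneg h, mul_one]
        · rw [abs_of_neg (not_le.1 h)]; ring
      have h4 : (7 / 8 : ℝ) ≤ Av (ds F) (ps k) ⟨t, ht01⟩ := by
        have := Av_ge (ds F) (ps k) (ps_mem k) ⟨t, ht01⟩ 0
        rw [ds_zero F 0 _ htF, ps_zero] at this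
        simpa [cc] using this
      have h5 : a k * x k ⟨t, ht01⟩ = |a k| * (σ (k + K₀) * rr (k + K₀) t) *
          Av (ds F) (ps k) ⟨t, ht01⟩ := by
        change a k * (rr (k + K₀) t * Av (ds F) (ps k) ⟨t, ht01⟩) = _
        have h6 : σ (k + K₀) * σ (k + K₀) = 1 := by
          rcases hσ (k + K₀) with h | h <;> rw [h] <;> norm_num
        rw [h3]
        calc a k * (rr (k + K₀) t * Av (ds F) (ps k) ⟨t, ht01⟩) =
            a k * (1 * rr (k + K₀) t) * Av (ds F) (ps k) ⟨t, ht01⟩ := by ring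
          _ = _ := by rw [← h6]; ring
      rw [h5]
      have h7 : |a k| * (1 / 2) ≤ |a k| * (σ (k + K₀) * rr (k + K₀) t) :=
        mul_le_mul_of_nonneg_left h2 (abs_nonneg _)
      have h8 : |a k| * (1 / 2) * (7 / 8) ≤ |a k| * (σ (k + K₀) * rr (k + K₀) t) *
          Av (ds F) (ps k) ⟨t, ht01⟩ :=
        mul_le_mul h7 h4 (by norm_num) (le_trans (by positivity) h7)
      linarith
    have h2 := (le_abs_self _).trans
      ((Finsupp.linearCombination ℝ x a).norm_coe_le_norm ⟨t, ht01⟩)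
    have h3 : 0 ≤ ‖Finsupp.linearCombination ℝ x a‖ := norm_nonneg _
    linarith
  refine main_span x hx 4 (by norm_num) _ ?_ ?_ ?_ ?_
  · intro a k
    obtain ⟨N, hN⟩ := hsupp a
    refine le_trans ?_ (key a (max N (k + 1)) (hN.trans (Finset.range_subset_range.2
      (le_max_left _ _))))
    exact Finset.single_le_sum (f := fun k => |a k|) (fun i _ => abs_nonneg _)
      (Finset.mem_range.2 (lt_of_lt_of_le (Nat.lt_succ_self k) (le_max_right _ _)))
  · intro n
    refine ⟨fun j => j.1, fun a => ?_⟩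
    obtain ⟨N, hN⟩ := hsupp a
    refine le_trans ?_ (key a (max N n) (hN.trans (Finset.range_subset_range.2
      (le_max_left _ _))))
    rw [Fin.sum_univ_eq_sum_range (fun j => |a j|) n]
    exact Finset.sum_le_sum_of_subset_of_nonneg (Finset.range_subset_range.2 (le_max_right _ _))
      (fun i _ _ => abs_nonneg _)
  · intro t ht η hη
    have ht' : ∀ m, t ∉ F m := fun m hm => ht (mem_iUnion.2 ⟨m, hm⟩)
    obtain ⟨d, hd, δ, hδ, hG⟩ := Av_near F hF hne t ht' (η / 4) (by positivity)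
    obtain ⟨k₁, hk₁⟩ := exists_nat_gt (1 / δ)
    refine ⟨d, hd, Finset.range k₁, fun a s hs => ?_⟩
    obtain ⟨N', hN'⟩ := hsupp a
    obtain ⟨N, hN, hNk⟩ : ∃ N, a.support ⊆ Finset.range N ∧ k₁ ≤ N :=
      ⟨max N' k₁, hN'.trans (Finset.range_subset_range.2 (le_max_left _ _)), le_max_right _ _⟩
    rw [hLN a N hN, ← Finset.sum_range_add_sum_Ico _ hNk, add_sub_cancel_left]
    refine (Finset.abs_sum_le_sum_abs _ _).trans ?_
    calc ∑ k ∈ Finset.Ico k₁ N, |a k * x k s| ≤ ∑ k ∈ Finset.Ico k₁ N, |a k| * (η / 4) := by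
          apply Finset.sum_le_sum
          intro k hk
          rw [abs_mul]
          apply mul_le_mul_of_nonneg_left _ (abs_nonneg _)
          have h1 : Av (ds F) (ps k) s ≤ η / 4 := by
            refine hG (ps k) (ps_mem k) (fun r hr => ?_) s hs
            apply ps_eq_zero
            have h2 : (k₁ : ℝ) ≤ k := by exact_mod_cast (Finset.mem_Ico.1 hk).1
            have h3 : 1 / δ * δ = 1 := by field_simp
            have h4 : 1 / δ * δ ≤ k * r := by
              apply mul_le_mul _ hr hδ.le (Nat.cast_nonneg _)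
              linarith
            linarith
          change |rr (k + K₀) s * Av (ds F) (ps k) s| ≤ η / 4
          rw [abs_mul, abs_of_nonneg (Av_nonneg _ _ (ps_mem k) s)]
          have h5 := rr_abs (k + K₀) s
          have h6 := Av_nonneg (ds F) _ (ps_mem k) s
          calc |rr (k + K₀) s| * Av (ds F) (ps k) s ≤ 1 * Av (ds F) (ps k) s :=
                mul_le_mul_of_nonneg_right h5 h6
            _ ≤ η / 4 := by linarith
      _ = (∑ k ∈ Finset.Ico k₁ N, |a k|) * (η / 4) := by rw [Finset.sum_mul]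
      _ ≤ (∑ k ∈ Finset.range N, |a k|) * (η / 4) := by
          apply mul_le_mul_of_nonneg_right _ (by positivity)
          apply Finset.sum_le_sum_of_subset_of_nonneg
          · intro k hk
            exact Finset.mem_range.2 (Finset.mem_Ico.1 hk).2
          · intro i _ _
            exact abs_nonneg _
      _ ≤ (4 * ‖Finsupp.linearCombination ℝ x a‖) * (η / 4) :=
          mul_le_mul_of_nonneg_right (key a N hN) (by positivity)
      _ = η * ‖Finsupp.linearCombination ℝ x a‖ := by ring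
  · intro t ht
    obtain ⟨m, hm⟩ := mem_iUnion.1 ht
    refine ⟨cc m / 2, by have := cc_pos m; positivity, fun d hd => ?_⟩
    obtain ⟨k, hk1, hk2⟩ : ∃ k : ℕ, 3 / 16 ^ (k + K₀) ≤ min d (1 / 2) ∧
        (k : ℝ) * (3 / 16 ^ (k + K₀)) ≤ 1 / 2 := by
      have hpos : 0 < min d (1 / 2) / 3 := by positivity
      obtain ⟨n, hn⟩ := exists_pow_lt_of_lt_one hpos (by norm_num : (1 / 16 : ℝ) < 1)
      rw [one_div, inv_pow, ← one_div] at hn
      refine ⟨n + 1, ?_, ?_⟩
      · have h1 : (3 : ℝ) / 16 ^ (n + 1 + K₀) ≤ 3 / 16 ^ n := by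
          apply div_le_div_of_nonneg_left (by norm_num) (by positivity)
          exact pow_le_pow_right₀ (by norm_num) (by omega)
        have h2 : (3 : ℝ) / 16 ^ n = 3 * (1 / 16 ^ n) := by ring
        linarith
      · have h1 : (3 : ℝ) / 16 ^ (n + 1 + K₀) ≤ 3 / 16 ^ (n + 1) := by
          apply div_le_div_of_nonneg_left (by norm_num) (by positivity)
          exact pow_le_pow_right₀ (by norm_num) (by omega)
        have h2 : ((n + 1 : ℕ) : ℝ) * 6 ≤ 16 ^ (n + 1) := by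
          have h3 : ∀ n : ℕ, (n + 1) * 6 ≤ 16 ^ (n + 1) := by
            intro n
            induction n with
            | zero => norm_num
            | succ n ih => rw [pow_succ]; omega
          exact_mod_cast h3 n
        calc ((n + 1 : ℕ) : ℝ) * (3 / 16 ^ (n + 1 + K₀)) ≤ ((n + 1 : ℕ) : ℝ) * (3 / 16 ^ (n + 1)) :=
              mul_le_mul_of_nonneg_left h1 (Nat.cast_nonneg _)
          _ = (((n + 1 : ℕ) : ℝ) * 6) / 16 ^ (n + 1) / 2 := by ring
          _ ≤ 1 / 2 := by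
              apply div_le_div_of_nonneg_right _ (by norm_num)
              rw [div_le_one (by positivity)]
              exact h2
    obtain ⟨s, hs01, hs1, hs2⟩ := rr_pattern' 1 (k + K₀) t (3 / 16 ^ (k + K₀)) t.2
      (hk1.trans (min_le_right _ _)) le_rfl (fun _ => 1) (fun _ => Or.inl rfl)
    obtain ⟨s', hs'01, hs'1, hs'2⟩ := rr_pattern' 1 (k + K₀) t (3 / 16 ^ (k + K₀)) t.2
      (hk1.trans (min_le_right _ _)) le_rfl (fun _ => -1) (fun _ => Or.inr rfl)
    have hAv : ∀ z : unitInterval, |(z : ℝ) - t| ≤ 3 / 16 ^ (k + K₀) →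
        cc m * (1 / 2) ≤ Av (ds F) (ps k) z := by
      intro z hz
      refine le_trans ?_ (Av_ge (ds F) (ps k) (ps_mem k) z m)
      apply mul_le_mul_of_nonneg_left _ (cc_pos m).le
      apply ps_ge
      have h1 := ds_lip F m z t
      rw [ds_zero F m t hm, zero_add] at h1
      exact (mul_le_mul_of_nonneg_left (h1.trans hz) (Nat.cast_nonneg _)).trans hk2
    refine ⟨k, ⟨s, hs01⟩, ⟨s', hs'01⟩, hs1.trans (hk1.trans (min_le_left _ _)),
      hs'1.trans (hk1.trans (min_le_left _ _)), ?_⟩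
    have e1 := hs2 (k + K₀) le_rfl (by omega)
    have e2 := hs'2 (k + K₀) le_rfl (by omega)
    have e3 := hAv ⟨s, hs01⟩ hs1
    have e4 := hAv ⟨s', hs'01⟩ hs'1
    change cc m / 2 ≤ |rr (k + K₀) s * Av (ds F) (ps k) ⟨s, hs01⟩ -
      rr (k + K₀) s' * Av (ds F) (ps k) ⟨s', hs'01⟩|
    have hc := cc_pos m
    refine le_trans ?_ (le_abs_self _)
    nlinarith


/-! ### Second case -/

/-- Bump functions. -/
noncomputable def bp (η : ℝ) (n : ℕ) (r : ℝ) : ℝ :=
  max 0 (min 1 (2 - |r - η / 4 ^ n| / (η / 4 ^ n / 4)))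

lemma bp_cont (η : ℝ) (n : ℕ) : Continuous (bp η n) := by unfold bp; fun_prop

lemma bp_mem (η : ℝ) (n : ℕ) (r : ℝ) : 0 ≤ bp η n r ∧ bp η n r ≤ 1 :=
  ⟨le_max_left _ _, max_le zero_le_one (min_le_left _ _)⟩

lemma bp_one (η : ℝ) (hη : 0 < η) (n : ℕ) (r : ℝ) (h : |r - η / 4 ^ n| ≤ η / 4 ^ n / 4) :
    bp η n r = 1 := by
  have h1 : |r - η / 4 ^ n| / (η / 4 ^ n / 4) ≤ 1 := by
    rw [div_le_one (by positivity)]
    exact h
  unfold bp
  rw [min_eq_left (by linarith)]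
  simp

lemma bp_ne (η : ℝ) (hη : 0 < η) (n : ℕ) (r : ℝ) (h : bp η n r ≠ 0) :
    η / 4 ^ n / 2 < r ∧ r < 3 / 2 * (η / 4 ^ n) := by
  have h1 : |r - η / 4 ^ n| < η / 4 ^ n / 2 := by
    by_contra hcon
    push Not at hcon
    apply h
    unfold bp
    apply max_eq_left
    refine (min_le_right _ _).trans ?_
    have h2 : 2 ≤ |r - η / 4 ^ n| / (η / 4 ^ n / 4) := by
      rw [le_div_iff₀ (by positivity)]
      linarith
    linarith
  rw [abs_lt] at h1
  constructor <;> linarith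

lemma bp_disj (η : ℝ) (hη : 0 < η) (n n' : ℕ) (r : ℝ) (h : bp η n r ≠ 0) (h' : bp η n' r ≠ 0) :
    n = n' := by
  have key : ∀ a b : ℕ, a < b → bp η a r ≠ 0 → bp η b r ≠ 0 → False := by
    intro a b hab ha hb
    have h1 := (bp_ne η hη a r ha).1
    have h2 := (bp_ne η hη b r hb).2
    have h3 : η / 4 ^ b ≤ η / 4 ^ a / 4 := by
      rw [div_div, ← pow_succ]
      apply div_le_div_of_nonneg_left hη.le (by positivity)
      exact pow_le_pow_right₀ (by norm_num) hab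
    have h4 : 0 < η / 4 ^ a := by positivity
    linarith
  rcases lt_trichotomy n n' with h1 | h1 | h1
  · exact (key n n' h1 h h').elim
  · exact h1
  · exact (key n' n h1 h' h).elim

lemma bp_sum (η : ℝ) (hη : 0 < η) (S : Finset ℕ) (r : ℝ) :
    0 ≤ ∑ n ∈ S, bp η n r ∧ ∑ n ∈ S, bp η n r ≤ 1 := by
  refine ⟨Finset.sum_nonneg fun n _ => (bp_mem η n r).1, ?_⟩
  by_cases h : ∃ n ∈ S, bp η n r ≠ 0
  · obtain ⟨n, hn, hne⟩ := h
    rw [Finset.sum_eq_single n (fun b _ hb => by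
      by_contra hb'
      exact hb (bp_disj η hη b n r hb' hne)) (fun h' => absurd hn h')]
    exact (bp_mem η n r).2
  · push Not at h
    rw [Finset.sum_eq_zero h]
    norm_num

/-- Intermediate values of the distance functions. -/
lemma ds_ivt (F : ℕ → Set unitInterval) (m : ℕ) (t z : unitInterval) (v : ℝ)
    (h1 : ds F m t ≤ v) (h2 : v ≤ ds F m z) :
    ∃ y : unitInterval, ds F m y = v ∧ |(y : ℝ) - t| ≤ |(z : ℝ) - t| := by
  let g : ℝ → ℝ := fun r => ds F m (Set.projIcc 0 1 zero_le_one r)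
  have hg : Continuous g := (ds_cont F m).comp continuous_projIcc
  have hsub := intermediate_value_uIcc (a := (t : ℝ)) (b := z) (f := g) hg.continuousOn
  have hgt : g t = ds F m t := by
    change ds F m (Set.projIcc 0 1 zero_le_one (t : ℝ)) = _
    rw [Set.projIcc_val]
  have hgz : g z = ds F m z := by
    change ds F m (Set.projIcc 0 1 zero_le_one (z : ℝ)) = _
    rw [Set.projIcc_val]
  rw [hgt, hgz] at hsub
  obtain ⟨r, hr, hr'⟩ := hsub (Set.mem_uIcc_of_le h1 h2)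
  have hr01 : r ∈ Icc (0 : ℝ) 1 := by
    rcases Set.mem_uIcc.1 hr with h | h
    · exact ⟨t.2.1.trans h.1, h.2.trans z.2.2⟩
    · exact ⟨z.2.1.trans h.1, h.2.trans t.2.2⟩
  refine ⟨⟨r, hr01⟩, ?_, ?_⟩
  · rw [← hr']
    change _ = ds F m (Set.projIcc 0 1 zero_le_one r)
    rw [Set.projIcc_of_mem _ hr01]
  · exact Set.abs_sub_left_of_mem_uIcc hr

theorem case_two (F : ℕ → Set unitInterval) (hF : ∀ m, IsClosed (F m))
    (hne : ∀ m, (F m).Nonempty) (hint : ∀ m, interior (F m) = ∅) :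
    ∃ X : Submodule ℝ C01, IsClosed (X : Set C01) ∧ ¬ IsComplemented X ∧
      Omega X = ⋃ m, F m := by
  classical
  -- a point at positive distance of `F 0`
  obtain ⟨z₀, hz₀⟩ : ∃ z₀, z₀ ∉ F 0 := by
    by_contra hcon
    push Not at hcon
    have h1 : F 0 = univ := Set.eq_univ_of_forall hcon
    have h2 := hint 0
    rw [h1, interior_univ] at h2
    exact Set.univ_nonempty.ne_empty h2
  obtain ⟨t₀, ht₀⟩ := hne 0
  let η₀ : ℝ := ds F 0 z₀
  have hη₀ : 0 < η₀ := ds_pos F 0 (hF 0) (hne 0) z₀ hz₀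
  have hη₀1 : η₀ ≤ 1 := by
    have h1 := ds_lip F 0 z₀ t₀
    rw [ds_zero F 0 t₀ ht₀, zero_add] at h1
    refine h1.trans ?_
    rw [abs_le]
    constructor <;> linarith [z₀.2.1, z₀.2.2, t₀.2.1, t₀.2.2]
  obtain ⟨K₀, hK₀⟩ : ∃ K₀ : ℕ, 3 / 16 ^ K₀ ≤ η₀ / 4 := by
    have hpos : 0 < η₀ / 4 / 3 := by positivity
    obtain ⟨n, hn⟩ := exists_pow_lt_of_lt_one hpos (by norm_num : (1 / 16 : ℝ) < 1)
    refine ⟨n, ?_⟩
    rw [one_div, inv_pow, ← one_div] at hn
    have : (3 : ℝ) / 16 ^ n = 3 * (1 / 16 ^ n) := by ring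
    rw [this]
    linarith
  have hKn : ∀ n : ℕ, 3 / 16 ^ (K₀ + n) ≤ η₀ / 4 ^ n / 4 := by
    intro n
    have h1 : (3 : ℝ) / 16 ^ (K₀ + n) = 3 / 16 ^ K₀ / 16 ^ n := by rw [pow_add, div_div]
    have h2 : η₀ / 4 ^ n / 4 = η₀ / 4 / 4 ^ n := by ring
    rw [h1, h2]
    apply div_le_div₀ (by positivity) hK₀ (by positivity)
    exact pow_le_pow_left₀ (by norm_num) (by norm_num) n
  have hρn : ∀ n : ℕ, η₀ / 4 ^ n / 4 ≤ 1 / 2 := by
    intro n
    have h1 : η₀ / 4 ^ n ≤ 1 := by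
      rw [div_le_one (by positivity)]
      exact hη₀1.trans (one_le_pow₀ (by norm_num))
    linarith
  let ι : Type := Σ n : ℕ, Fin (n + 1)
  let x : ι → C01 := fun k => bf F (K₀ + k.1 + k.2) (bp η₀ k.1) (bp_cont η₀ k.1) (bp_mem η₀ k.1)
  have hx : ∀ k, ‖x k‖ ≤ 1 := fun k => bf_norm _ _ _ _ _
  let B : ℕ → Finset ι := fun N => (Finset.range N).sigma (fun n => Finset.univ)
  have hLN : ∀ (a : ι →₀ ℝ) (N : ℕ), a.support ⊆ B N → ∀ s : unitInterval,
      Finsupp.linearCombination ℝ x a s = ∑ n ∈ Finset.range N, ∑ i : Fin (n + 1),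
        a ⟨n, i⟩ * x ⟨n, i⟩ s := by
    intro a N hN s
    rw [Finsupp.linearCombination_apply, Finsupp.sum_of_support_subset a hN _ (by simp),
      ContinuousMap.sum_apply, Finset.sum_sigma]
    rfl
  have hsupp : ∀ (a : ι →₀ ℝ), ∃ N, a.support ⊆ B N := by
    intro a
    obtain ⟨b, hb⟩ := (a.support.image Sigma.fst).exists_le
    refine ⟨b + 1, fun k hk => ?_⟩
    refine Finset.mem_sigma.2 ⟨?_, Finset.mem_univ _⟩
    exact Finset.mem_range.2 (Nat.lt_succ_of_le (hb k.1 (Finset.mem_image_of_mem _ hk)))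
  have hBmono : ∀ N N', N ≤ N' → B N ⊆ B N' := by
    intro N N' h k hk
    rw [Finset.mem_sigma] at hk ⊢
    exact ⟨Finset.mem_range.2 (lt_of_lt_of_le (Finset.mem_range.1 hk.1) h), hk.2⟩
  -- block norms
  let A : (ι →₀ ℝ) → ℕ → ℝ := fun a n => ∑ i : Fin (n + 1), |a ⟨n, i⟩|
  have hA0 : ∀ a n, 0 ≤ A a n := fun a n => Finset.sum_nonneg fun i _ => abs_nonneg _
  have hblock : ∀ (a : ι →₀ ℝ) (n : ℕ) (s : unitInterval),
      ∑ i : Fin (n + 1), a ⟨n, i⟩ * x ⟨n, i⟩ s =
        (∑ i : Fin (n + 1), a ⟨n, i⟩ * rr (K₀ + n + i) s) * Av (ds F) (bp η₀ n) s := by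
    intro a n s
    rw [Finset.sum_mul]
    apply Finset.sum_congr rfl
    intro i _
    change a ⟨n, i⟩ * (rr (K₀ + n + i) s * Av (ds F) (bp η₀ n) s) = _
    ring
  have hgn : ∀ (a : ι →₀ ℝ) (n : ℕ) (s : unitInterval),
      |∑ i : Fin (n + 1), a ⟨n, i⟩ * rr (K₀ + n + i) s| ≤ A a n := by
    intro a n s
    refine (Finset.abs_sum_le_sum_abs _ _).trans ?_
    apply Finset.sum_le_sum
    intro i _
    rw [abs_mul]
    exact mul_le_of_le_one_right (abs_nonneg _) (rr_abs _ _)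
  have key : ∀ (a : ι →₀ ℝ) (n : ℕ), A a n ≤ 4 * ‖Finsupp.linearCombination ℝ x a‖ := by
    intro a n
    obtain ⟨N', hN'⟩ := hsupp a
    obtain ⟨N, hN, hNn⟩ : ∃ N, a.support ⊆ B N ∧ n < N :=
      ⟨max N' (n + 1), hN'.trans (hBmono _ _ (le_max_left _ _)),
        lt_of_lt_of_le (Nat.lt_succ_self n) (le_max_right _ _)⟩
    obtain ⟨n₁, hn₁, hmax⟩ := Finset.exists_max_image (Finset.range N) (A a)
      ⟨n, Finset.mem_range.2 hNn⟩
    refine (hmax n (Finset.mem_range.2 hNn)).trans ?_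
    -- the point
    obtain ⟨y, hy, _⟩ := ds_ivt F 0 t₀ z₀ (η₀ / 4 ^ n₁)
      (by rw [ds_zero F 0 t₀ ht₀]; positivity)
      (by
        change η₀ / 4 ^ n₁ ≤ η₀
        exact div_le_self hη₀.le (one_le_pow₀ (by norm_num)))
    let σ : ℕ → ℝ := fun j =>
      if h : j - (K₀ + n₁) < n₁ + 1 then (if 0 ≤ a ⟨n₁, ⟨j - (K₀ + n₁), h⟩⟩ then 1 else -1) else 1
    have hσ : ∀ j, σ j = 1 ∨ σ j = -1 := by
      intro j
      change (if h : j - (K₀ + n₁) < n₁ + 1 then
        (if 0 ≤ a ⟨n₁, ⟨j - (K₀ + n₁), h⟩⟩ then 1 else -1) else (1 : ℝ)) = 1 ∨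
        (if h : j - (K₀ + n₁) < n₁ + 1 then
        (if 0 ≤ a ⟨n₁, ⟨j - (K₀ + n₁), h⟩⟩ then 1 else -1) else (1 : ℝ)) = -1
      split_ifs
      · left; rfl
      · right; rfl
      · left; rfl
    obtain ⟨s, hs01, hs1, hs2⟩ := rr_pattern' (n₁ + 1) (K₀ + n₁) y (η₀ / 4 ^ n₁ / 4) y.2
      (hρn n₁) (hKn n₁) σ hσ
    have hbp : bp η₀ n₁ (ds F 0 ⟨s, hs01⟩) = 1 := by
      apply bp_one η₀ hη₀
      have h1 := ds_lip' F 0 ⟨s, hs01⟩ y
      rw [hy] at h1
      exact h1.trans hs1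
    have h1 : A a n₁ / 2 ≤ ∑ i : Fin (n₁ + 1), a ⟨n₁, i⟩ * rr (K₀ + n₁ + i) s := by
      change (∑ i : Fin (n₁ + 1), |a ⟨n₁, i⟩|) / 2 ≤ _
      rw [Finset.sum_div]
      apply Finset.sum_le_sum
      intro i _
      have h2 := hs2 (K₀ + n₁ + i) (by omega) (by have := i.2; omega)
      have h3 : σ (K₀ + n₁ + i) = if 0 ≤ a ⟨n₁, i⟩ then 1 else -1 := by
        have h4 : K₀ + n₁ + (i : ℕ) - (K₀ + n₁) = i := by omega
        change (if h : K₀ + n₁ + (i : ℕ) - (K₀ + n₁) < n₁ + 1 then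
          (if 0 ≤ a ⟨n₁, ⟨K₀ + n₁ + (i : ℕ) - (K₀ + n₁), h⟩⟩ then 1 else -1) else (1 : ℝ)) = _
        have h5 : K₀ + n₁ + (i : ℕ) - (K₀ + n₁) < n₁ + 1 := by rw [h4]; exact i.2
        rw [dif_pos h5]
        have h6 : (⟨K₀ + n₁ + (i : ℕ) - (K₀ + n₁), h5⟩ : Fin (n₁ + 1)) = i := Fin.ext h4
        rw [h6]
      rw [h3] at h2
      split_ifs at h2 with h
      · rw [abs_of_nonneg h]
        nlinarith
      · rw [abs_of_neg (not_le.1 h)]
        have := not_le.1 h
        nlinarith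
    have h2 : (7 / 8 : ℝ) ≤ Av (ds F) (bp η₀ n₁) ⟨s, hs01⟩ := by
      have := Av_ge (ds F) (bp η₀ n₁) (bp_mem η₀ n₁) ⟨s, hs01⟩ 0
      rw [hbp] at this
      simpa [cc] using this
    have h3 : ∑ n ∈ (Finset.range N).erase n₁, Av (ds F) (bp η₀ n) ⟨s, hs01⟩ ≤ 1 / 8 := by
      rw [← Av_sum (ds F) _ (bp η₀) (bp_mem η₀)]
      refine (Av_le (ds F) _ (fun r => bp_sum η₀ hη₀ _ r) _ 1).trans ?_
      rw [Finset.sum_range_one]
      have h4 : ∑ n ∈ (Finset.range N).erase n₁, bp η₀ n (ds F 0 ⟨s, hs01⟩) = 0 := by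
        apply Finset.sum_eq_zero
        intro n hn
        by_contra hne'
        have h5 : bp η₀ n₁ (ds F 0 ⟨s, hs01⟩) ≠ 0 := by rw [hbp]; norm_num
        exact (Finset.mem_erase.1 hn).1 (bp_disj η₀ hη₀ n n₁ _ hne' h5)
      rw [h4]
      norm_num
    have h4 : |∑ n ∈ (Finset.range N).erase n₁, ∑ i : Fin (n + 1), a ⟨n, i⟩ * x ⟨n, i⟩ ⟨s, hs01⟩| ≤
        A a n₁ * (1 / 8) := by
      refine (Finset.abs_sum_le_sum_abs _ _).trans ?_
      calc ∑ n ∈ (Finset.range N).erase n₁, |∑ i : Fin (n + 1), a ⟨n, i⟩ * x ⟨n, i⟩ ⟨s, hs01⟩| ≤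
          ∑ n ∈ (Finset.range N).erase n₁, A a n₁ * Av (ds F) (bp η₀ n) ⟨s, hs01⟩ := by
            apply Finset.sum_le_sum
            intro n hn
            rw [hblock, abs_mul, abs_of_nonneg (Av_nonneg _ _ (bp_mem η₀ n) _)]
            apply mul_le_mul_of_nonneg_right _ (Av_nonneg _ _ (bp_mem η₀ n) _)
            exact (hgn a n _).trans (hmax n (Finset.mem_of_mem_erase hn))
        _ = A a n₁ * ∑ n ∈ (Finset.range N).erase n₁, Av (ds F) (bp η₀ n) ⟨s, hs01⟩ := by
            rw [Finset.mul_sum]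
        _ ≤ _ := mul_le_mul_of_nonneg_left h3 (hA0 a n₁)
    have h5 : A a n₁ / 2 * (7 / 8) ≤ ∑ i : Fin (n₁ + 1), a ⟨n₁, i⟩ * x ⟨n₁, i⟩ ⟨s, hs01⟩ := by
      rw [hblock]
      have := hA0 a n₁
      exact mul_le_mul h1 h2 (by norm_num) (le_trans (by positivity) h1)
    have h6 := (le_abs_self _).trans
      ((Finsupp.linearCombination ℝ x a).norm_coe_le_norm ⟨s, hs01⟩)
    rw [hLN a N hN, ← Finset.add_sum_erase _ _ hn₁] at h6
    have h7 := (abs_le.1 h4).1
    have := hA0 a n₁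
    linarith
  refine main_span x hx 4 (by norm_num) _ ?_ ?_ ?_ ?_
  · intro a k
    refine le_trans ?_ (key a k.1)
    exact Finset.single_le_sum (f := fun i => |a ⟨k.1, i⟩|) (fun i _ => abs_nonneg _)
      (Finset.mem_univ k.2)
  · intro n
    refine ⟨fun j => ⟨n, j.castSucc⟩, fun a => ?_⟩
    refine le_trans ?_ (key a n)
    change _ ≤ ∑ i : Fin (n + 1), |a ⟨n, i⟩|
    rw [Fin.sum_univ_castSucc]
    have := abs_nonneg (a ⟨n, Fin.last n⟩)
    linarith
  · intro t ht η hη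
    have ht' : ∀ m, t ∉ F m := fun m hm => ht (mem_iUnion.2 ⟨m, hm⟩)
    obtain ⟨d, hd, δ, hδ, hG⟩ := Av_near F hF hne t ht' (η / 4) (by positivity)
    obtain ⟨n₁, hn₁⟩ : ∃ n₁ : ℕ, 3 / 2 * (η₀ / 4 ^ n₁) ≤ δ := by
      have hpos : 0 < δ / (3 / 2 * η₀) := by positivity
      obtain ⟨n, hn⟩ := exists_pow_lt_of_lt_one hpos (by norm_num : (1 / 4 : ℝ) < 1)
      refine ⟨n, ?_⟩
      rw [lt_div_iff₀ (by positivity), one_div, inv_pow] at hn
      have h2 : 3 / 2 * (η₀ / 4 ^ n) = (4 ^ n)⁻¹ * (3 / 2 * η₀) := by ring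
      rw [h2]
      exact hn.le
    refine ⟨d, hd, B n₁, fun a s hs => ?_⟩
    obtain ⟨N', hN'⟩ := hsupp a
    obtain ⟨N, hN, hNk⟩ : ∃ N, a.support ⊆ B N ∧ n₁ ≤ N :=
      ⟨max N' n₁, hN'.trans (hBmono _ _ (le_max_left _ _)), le_max_right _ _⟩
    have hBs : ∑ k ∈ B n₁, a k * x k s = ∑ n ∈ Finset.range n₁, ∑ i : Fin (n + 1),
        a ⟨n, i⟩ * x ⟨n, i⟩ s := Finset.sum_sigma _ _ _
    rw [hLN a N hN, hBs, ← Finset.sum_range_add_sum_Ico _ hNk, add_sub_cancel_left]
    refine (Finset.abs_sum_le_sum_abs _ _).trans ?_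
    calc ∑ n ∈ Finset.Ico n₁ N, |∑ i : Fin (n + 1), a ⟨n, i⟩ * x ⟨n, i⟩ s| ≤
        ∑ n ∈ Finset.Ico n₁ N, (4 * ‖Finsupp.linearCombination ℝ x a‖) *
          Av (ds F) (bp η₀ n) s := by
          apply Finset.sum_le_sum
          intro n hn
          rw [hblock, abs_mul, abs_of_nonneg (Av_nonneg _ _ (bp_mem η₀ n) _)]
          apply mul_le_mul_of_nonneg_right _ (Av_nonneg _ _ (bp_mem η₀ n) _)
          exact (hgn a n _).trans (key a n)
      _ = (4 * ‖Finsupp.linearCombination ℝ x a‖) *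
          Av (ds F) (fun r => ∑ n ∈ Finset.Ico n₁ N, bp η₀ n r) s := by
          rw [Av_sum (ds F) _ (bp η₀) (bp_mem η₀), Finset.mul_sum]
      _ ≤ (4 * ‖Finsupp.linearCombination ℝ x a‖) * (η / 4) := by
          apply mul_le_mul_of_nonneg_left _ (by positivity)
          refine hG _ (fun r => bp_sum η₀ hη₀ _ r) (fun r hr => ?_) s hs
          apply Finset.sum_eq_zero
          intro n hn
          by_contra hne'
          have h1 := (bp_ne η₀ hη₀ n r hne').2
          have h2 : η₀ / 4 ^ n ≤ η₀ / 4 ^ n₁ := by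
            apply div_le_div_of_nonneg_left hη₀.le (by positivity)
            exact pow_le_pow_right₀ (by norm_num) (Finset.mem_Ico.1 hn).1
          linarith
      _ = η * ‖Finsupp.linearCombination ℝ x a‖ := by ring
  · intro t ht
    obtain ⟨m, hm⟩ := mem_iUnion.1 ht
    refine ⟨cc m, cc_pos m, fun d hd => ?_⟩
    -- a point off `F m` near `t`
    obtain ⟨z, hz, hzt⟩ : ∃ z, z ∉ F m ∧ |(z : ℝ) - t| < d / 2 := by
      by_contra hcon
      push Not at hcon
      have h1 : t ∈ interior (F m) := by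
        rw [mem_interior]
        refine ⟨Metric.ball t (d / 2), ?_, Metric.isOpen_ball, Metric.mem_ball_self (by positivity)⟩
        intro z hz
        by_contra hzF
        have := hcon z hzF
        rw [Metric.mem_ball, Subtype.dist_eq, Real.dist_eq] at hz
        linarith
      rw [hint m] at h1
      exact h1
    have hzp := ds_pos F m (hF m) (hne m) z hz
    obtain ⟨n, hn⟩ : ∃ n : ℕ, η₀ / 4 ^ n ≤ min (ds F m z) (d / 2) := by
      have hpos : 0 < min (ds F m z) (d / 2) / η₀ := by positivity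
      obtain ⟨n, hn⟩ := exists_pow_lt_of_lt_one hpos (by norm_num : (1 / 4 : ℝ) < 1)
      refine ⟨n, ?_⟩
      rw [lt_div_iff₀ hη₀, one_div, inv_pow] at hn
      have h2 : η₀ / 4 ^ n = (4 ^ n)⁻¹ * η₀ := by ring
      rw [h2]
      exact hn.le
    obtain ⟨y, hy, hyt⟩ := ds_ivt F m t z (η₀ / 4 ^ n)
      (by rw [ds_zero F m t hm]; positivity) (hn.trans (min_le_left _ _))
    have hnd := hn.trans (min_le_right _ _)
    have hnp : 0 < η₀ / 4 ^ n := by positivity
    obtain ⟨s, hs01, hs1, hs2⟩ := rr_pattern' 1 (K₀ + n) y (η₀ / 4 ^ n / 4) y.2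
      (hρn n) (hKn n) (fun _ => 1) (fun _ => Or.inl rfl)
    obtain ⟨s', hs'01, hs'1, hs'2⟩ := rr_pattern' 1 (K₀ + n) y (η₀ / 4 ^ n / 4) y.2
      (hρn n) (hKn n) (fun _ => -1) (fun _ => Or.inr rfl)
    have hAv : ∀ w : unitInterval, |(w : ℝ) - y| ≤ η₀ / 4 ^ n / 4 →
        cc m ≤ Av (ds F) (bp η₀ n) w := by
      intro w hw
      refine le_trans ?_ (Av_ge (ds F) (bp η₀ n) (bp_mem η₀ n) w m)
      rw [bp_one η₀ hη₀, mul_one]
      have h1 := ds_lip' F m w y
      rw [hy] at h1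
      exact h1.trans hw
    have hnear : ∀ w : ℝ, |w - y| ≤ η₀ / 4 ^ n / 4 → |w - t| ≤ d := by
      intro w hw
      have h1 := abs_sub_le w (y : ℝ) t
      linarith
    refine ⟨⟨n, 0⟩, ⟨s, hs01⟩, ⟨s', hs'01⟩, hnear s hs1, hnear s' hs'1, ?_⟩
    have e1 := hs2 (K₀ + n) le_rfl (by omega)
    have e2 := hs'2 (K₀ + n) le_rfl (by omega)
    have e3 := hAv ⟨s, hs01⟩ hs1
    have e4 := hAv ⟨s', hs'01⟩ hs'1
    change cc m ≤ |rr (K₀ + n + 0) s * Av (ds F) (bp η₀ n) ⟨s, hs01⟩ -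
      rr (K₀ + n + 0) s' * Av (ds F) (bp η₀ n) ⟨s', hs'01⟩|
    rw [Nat.add_zero]
    have hc := cc_pos m
    refine le_trans ?_ (le_abs_self _)
    nlinarith

/-- For every nonempty `F_σ` set `M ⊆ [0,1]` there is a non-complemented closed linear subspace
`X` of `C[0,1]` with `Ω(X) = M`. -/
theorem result (M : Set unitInterval) (hM : M.Nonempty)
    (hMF : ∃ F : ℕ → Set unitInterval, (∀ n, IsClosed (F n)) ∧ M = ⋃ n, F n) :
    ∃ X : Submodule ℝ C01, IsClosed (X : Set C01) ∧ ¬ IsComplemented X ∧ Omega X = M := by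
  obtain ⟨G, hG, hMG⟩ := hMF
  by_cases h : ∃ m, (interior (G m)).Nonempty
  · obtain ⟨m₀, hm₀⟩ := h
    have hne : (G m₀).Nonempty := hm₀.mono interior_subset
    have hU : (⋃ m, (G m ∪ G m₀)) = M := by
      rw [hMG]
      apply Subset.antisymm
      · exact iUnion_subset fun m => union_subset (subset_iUnion G m) (subset_iUnion G m₀)
      · exact iUnion_mono fun m => subset_union_left
    rw [← hU]
    exact case_one (fun m => G m ∪ G m₀) (fun m => (hG m).union (hG m₀))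
      (fun m => hne.mono subset_union_right)
      (hm₀.mono (interior_mono subset_union_right))
  · push Not at h
    obtain ⟨s, hs⟩ := hM
    rw [hMG] at hs
    obtain ⟨m₀, hm₀⟩ := mem_iUnion.1 hs
    have hU : (⋃ m, (G m ∪ G m₀)) = M := by
      rw [hMG]
      apply Subset.antisymm
      · exact iUnion_subset fun m => union_subset (subset_iUnion G m) (subset_iUnion G m₀)
      · exact iUnion_mono fun m => subset_union_left
    rw [← hU]
    refine case_two (fun m => G m ∪ G m₀) (fun m => (hG m).union (hG m₀))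
      (fun m => ⟨s, Or.inr hm₀⟩) (fun m => ?_)
    rw [interior_union_isClosed_of_interior_empty (hG m) (h m₀)]
    exact h m


end Pool.Agent.Results.MP_8e06fd_an.NonComplementedSpectrum
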